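import Pool.Agent.Lib.MP_c86c76_al.NotT.General

/-!
Twisted permutation representations with entries in the roots of unity of a fixed order: finite
image, almost invariant vectors and no invariant vector.
-/

set_option autoImplicit false

namespace Pool.Agent.Lib.MP_c86c76_al.Tau

open Complex Pool.Agent.Lib.MP_c86c76_al.NotT

/-- Almost invariant unit vectors in finite-dimensional unitary representations with finite image
and without non-zero invariant vectors. -/
def NoTau (G : Type) [Group G] : Prop := ∀ (S : Finset G) (ε : ℝ), 0 < ε →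
  ∃ (H : Type) (_ : NormedAddCommGroup H) (_ : InnerProductSpace ℂ H) (_ : FiniteDimensional ℂ H)
    (π : G →* (H ≃ₗᵢ[ℂ] H)) (v : H), (Set.range π).Finite ∧ ‖v‖ = 1 ∧
    (∀ s ∈ S, ‖π s v - v‖ < ε) ∧ ∀ w : H, (∀ x, π x w = w) → w = 0

theorem ch_mod {N : ℕ} (hN : 0 < N) {m n : ℤ} (h : (m : ZMod N) = n) :
    ch (2 * Real.pi / N) m = ch (2 * Real.pi / N) n := by
  obtain ⟨k, hk⟩ := (ZMod.intCast_eq_intCast_iff_dvd_sub m n N).1 h
  have e : n = m + N * k := by omega
  have h1 : ch (2 * Real.pi / N) (N * k) = 1 := by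
    unfold ch
    refine Complex.exp_eq_one_iff.2 ⟨k, ?_⟩
    have : (N : ℂ) ≠ 0 := by exact_mod_cast hN.ne'
    push_cast
    field_simp
  rw [e, ch_add, h1, mul_one]

variable {G X : Type} [Group G] [MulAction G X] [Fintype X]

theorem range_fin (a : G → X → ℤ) (ha : ∀ g h x, a (g * h) x = a g (h • x) + a h x) {N : ℕ}
    (hN : 0 < N) : (Set.range (twRep a ha (2 * Real.pi / N))).Finite := by
  have : NeZero N := ⟨hN.ne'⟩
  let c : G → (X → X) × (X → ZMod N) := fun g =>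
    (fun x => g⁻¹ • x, fun x => (a g (g⁻¹ • x) : ZMod N))
  have key : ∀ g h, c g = c h →
      twRep a ha (2 * Real.pi / N) g = twRep a ha (2 * Real.pi / N) h := fun g h e => by
    ext f x
    have e1 : g⁻¹ • x = h⁻¹ • x := congrFun (congrArg Prod.fst e) x
    have e2 : (a g (g⁻¹ • x) : ZMod N) = a h (h⁻¹ • x) := congrFun (congrArg Prod.snd e) x
    show twIso a _ g f x = twIso a _ h f x
    rw [twIso_apply, twIso_apply, ch_mod hN e2, e1]
  refine (Set.finite_range fun y => twRep a ha (2 * Real.pi / N) (Function.invFun c y)).subset ?_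
  rintro _ ⟨g, rfl⟩
  exact ⟨c g, key _ _ (Function.invFun_eq ⟨g, rfl⟩)⟩

theorem fin_of_cocycle (x0 : X) (htr : ∀ x, ∃ g : G, g • x0 = x) (a : G → X → ℤ)
    (ha : ∀ g h x, a (g * h) x = a g (h • x) + a h x) (γ : G) (hγ : γ • x0 = x0)
    (hn : a γ x0 ≠ 0) : NoTau G := by
  classical
  intro S ε hε
  obtain ⟨K, hK1, hKS, hKγ⟩ : ∃ K : ℝ, 1 ≤ K ∧ (∀ s ∈ S, ∀ x, |(a s x : ℝ)| ≤ K) ∧
      |(a γ x0 : ℝ)| ≤ K := by
    refine ⟨1 + |(a γ x0 : ℝ)| + ∑ s ∈ S, ∑ x, |(a s x : ℝ)|, ?_, fun s hs x => ?_, ?_⟩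
    · have : 0 ≤ ∑ s ∈ S, ∑ x, |(a s x : ℝ)| := by positivity
      have := abs_nonneg (a γ x0 : ℝ)
      linarith
    · have h1 : |(a s x : ℝ)| ≤ ∑ x, |(a s x : ℝ)| :=
        Finset.single_le_sum (f := fun x => |(a s x : ℝ)|) (fun _ _ => abs_nonneg _)
          (Finset.mem_univ x)
      have h2 : ∑ x, |(a s x : ℝ)| ≤ ∑ s ∈ S, ∑ x, |(a s x : ℝ)| :=
        Finset.single_le_sum (f := fun s => ∑ x, |(a s x : ℝ)|) (fun _ _ => by positivity) hs
      have := abs_nonneg (a γ x0 : ℝ)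
      linarith
    · have : 0 ≤ ∑ s ∈ S, ∑ x, |(a s x : ℝ)| := by positivity
      linarith
  set δ : ℝ := min ε 1 / 2 with hδ
  have hδ0 : 0 < δ := by
    have := lt_min hε one_pos
    positivity
  have hδε : δ < ε := by
    have := min_le_left ε 1
    linarith
  have hδ1 : δ < 1 := by
    have := min_le_right ε 1
    linarith
  have hK0 : 0 < K := by linarith
  obtain ⟨N, hN⟩ := exists_nat_gt (2 * Real.pi * K / δ)
  have hN0 : (0 : ℝ) < N := lt_trans (by have := Real.pi_pos; positivity) hN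
  have hN1 : 0 < N := by exact_mod_cast hN0
  have hfin := range_fin a ha hN1
  set t : ℝ := 2 * Real.pi / N with ht
  have ht0 : 0 < t := by have := Real.pi_pos; positivity
  have htK : t * K ≤ δ := by
    rw [div_lt_iff₀ hδ0] at hN
    rw [ht, div_mul_eq_mul_div, div_le_iff₀ hN0]
    linarith
  let u : EuclideanSpace ℂ X := WithLp.toLp 2 fun _ => (1 : ℂ)
  have hu : u ≠ 0 := fun h => by
    have := congrArg (fun f : EuclideanSpace ℂ X => f x0) h
    simp [u] at this
  have hun : 0 < ‖u‖ := norm_pos_iff.2 hu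
  refine ⟨EuclideanSpace ℂ X, inferInstance, inferInstance, inferInstance, twRep a ha t,
    ((‖u‖⁻¹ : ℝ) : ℂ) • u, hfin, ?_, fun s hs => ?_, fun w hw => ?_⟩
  · rw [norm_smul, Complex.norm_real, norm_inv, norm_norm, inv_mul_cancel₀ hun.ne']
  · rw [map_smul, ← smul_sub, norm_smul, Complex.norm_real, norm_inv, norm_norm]
    have h1 : ‖twRep a ha t s u - u‖ ≤ ‖(δ : ℂ) • u‖ := by
      rw [EuclideanSpace.norm_eq, EuclideanSpace.norm_eq]
      refine Real.sqrt_le_sqrt (Finset.sum_le_sum fun x _ => ?_)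
      refine pow_le_pow_left₀ (norm_nonneg _) ?_ 2
      have e1 : (twRep a ha t s u - u) x = ch t (a s (s⁻¹ • x)) - 1 := by
        show twIso a t s u x - 1 = _
        rw [twIso_apply]
        simp [u]
      have e2 : ((δ : ℂ) • u) x = δ := by simp [u]
      rw [e1, e2, Complex.norm_real, Real.norm_eq_abs, abs_of_pos hδ0]
      refine (norm_ch_sub _ _).trans ?_
      rw [abs_of_pos ht0]
      exact (mul_le_mul_of_nonneg_left (hKS s hs _) ht0.le).trans htK
    rw [norm_smul, Complex.norm_real, Real.norm_eq_abs, abs_of_pos hδ0] at h1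
    calc ‖u‖⁻¹ * ‖twRep a ha t s u - u‖ ≤ ‖u‖⁻¹ * (δ * ‖u‖) :=
          mul_le_mul_of_nonneg_left h1 (by positivity)
      _ = δ := by field_simp
      _ < ε := hδε
  · have h0 : w x0 = 0 := by
      have h1 : ch t (a γ (γ⁻¹ • x0)) * w (γ⁻¹ • x0) = w x0 :=
        congrArg (fun f : EuclideanSpace ℂ X => f x0) (hw γ)
      have h2 : γ⁻¹ • x0 = x0 := by rw [inv_smul_eq_iff, hγ]
      rw [h2] at h1
      have h3 : ch t (a γ x0) ≠ 1 := by
        refine ch_ne_one _ _ (mul_ne_zero ht0.ne' (by exact_mod_cast hn)) ?_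
        rw [abs_mul, abs_of_pos ht0]
        calc t * |(a γ x0 : ℝ)| ≤ t * K := mul_le_mul_of_nonneg_left hKγ ht0.le
          _ < 1 := htK.trans_lt hδ1
      by_contra h4
      exact h3 (mul_right_cancel₀ h4 (by rw [h1, one_mul]))
    ext x
    obtain ⟨g, rfl⟩ := htr x
    have h1 : ch t (a g (g⁻¹ • g • x0)) * w (g⁻¹ • g • x0) = w (g • x0) :=
      congrArg (fun f : EuclideanSpace ℂ X => f (g • x0)) (hw g)
    rw [inv_smul_smul, h0, mul_zero] at h1
    simp [← h1]

theorem fin_of_virtual {G : Type} [Group G] (K : Subgroup G) [K.FiniteIndex]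
    (φ : K →* Multiplicative ℤ) (k0 : K) (hk : φ k0 ≠ 1) : NoTau G := by
  classical
  have : Fintype (G ⧸ K) := Fintype.ofFinite _
  have hm : ∀ (g : G) (x : G ⧸ K), (g • x).out⁻¹ * (g * x.out) ∈ K := fun g x => by
    rw [← QuotientGroup.eq, QuotientGroup.out_eq']
    conv_lhs => rw [← QuotientGroup.out_eq' x]
    rfl
  let x0 : G ⧸ K := ((1 : G) : G ⧸ K)
  have h0 : x0.out ∈ K := by
    have := QuotientGroup.eq.1 (QuotientGroup.out_eq' x0).symm
    simpa using this
  have hfix : (k0 : G) • x0 = x0 := by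
    show (((k0 : G) * 1 : G) : G ⧸ K) = ((1 : G) : G ⧸ K)
    rw [QuotientGroup.eq]
    simp
  refine fin_of_cocycle x0 (fun x => ⟨x.out, ?_⟩)
    (fun g x => (φ ⟨_, hm g x⟩).toAdd) (fun g h x => ?_) k0 hfix ?_
  · show ((x.out * 1 : G) : G ⧸ K) = x
    rw [mul_one, QuotientGroup.out_eq']
  · rw [← toAdd_mul, ← map_mul]
    congr 2
    apply Subtype.ext
    simp only [Subgroup.coe_mul, mul_smul]
    group
  · have e : (⟨_, hm k0 x0⟩ : K) = (⟨_, h0⟩ : K)⁻¹ * (k0 * ⟨_, h0⟩) := by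
      apply Subtype.ext
      simp only [Subgroup.coe_mul, Subgroup.coe_inv, hfix]
    simp only [e, map_mul, map_inv]
    intro h
    apply hk
    have : (φ ⟨_, h0⟩)⁻¹ * (φ k0 * φ ⟨_, h0⟩) = φ k0 := by
      rw [mul_comm (φ k0), inv_mul_cancel_left]
    rw [this] at h
    exact toAdd_eq_zero.1 h

end Pool.Agent.Lib.MP_c86c76_al.Tau
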