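import Pool.Agent.Lib.MP_c86c76_al.B.Final
import Pool.Agent.Lib.MP_c86c76_al.Tau.Rep

/-!
Genus three and four: almost invariant vectors in representations with finite image.
-/

set_option autoImplicit false

namespace Pool.Agent.MB

open Pool.Agent.MCG Pool.Agent.Lib.MP_c86c76_al.Tau

theorem noTau_of {g : ℕ} (hg : 0 < g) {A : Type} [Group A] (Φ : AutC g →* A)
    (h1 : ∀ w, Φ ⟨MulAut.conj w, conj_mem_AutC g w⟩ = 1)
    (h2 : Commute (Φ ⟨rho g, rho_mem g⟩ ^ (2 * g)) (Φ ⟨tau g, tau_mem g⟩))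
    (K : Subgroup A) [K.FiniteIndex] (χ : K →* Multiplicative ℤ) (γ : K) (hχ : χ γ ≠ 1)
    (hγ : γ.1 ∈ Subgroup.closure {Φ ⟨rho g, rho_mem g⟩, Φ ⟨tau g, tau_mem g⟩})
    (Γ : Subgroup (ModPM (Surf g))) (hΓ : Γ.relIndex (ModP (Surf g)) ≠ 0) : NoTau Γ := by
  obtain ⟨M, hM, Ψ, a, b, ha, hb, ha', hb'⟩ := top_main hg Φ h1 h2
  rw [← ha, ← hb, ← Set.image_pair, ← MonoidHom.map_closure] at hγ
  obtain ⟨x, hx, e⟩ := hγ
  have : (ModP (Surf g)).Normal := Subgroup.normalClosure_normal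
  have i1 : x ^ (4 * g) ∈ (ModP (Surf g)).subgroupOf M := pow_mem_of_closure _ ha' hb' hx
  obtain ⟨n, hn, -, i2⟩ := Subgroup.exists_pow_mem_of_relIndex_ne_zero hΓ i1
  let L : Subgroup (ModPM (Surf g)) := (K.comap Ψ).map M.subtype
  have hL : L.FiniteIndex := ⟨by
    rw [Subgroup.index_map_subtype]
    refine mul_ne_zero ?_ hM.index_ne_zero
    rw [Subgroup.index_comap]
    exact Subgroup.FiniteIndex.index_ne_zero⟩
  have hm : ∀ y : L.subgroupOf Γ, y.1.1 ∈ M := fun y => Subgroup.map_subtype_le _ y.2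
  have hk : ∀ y : L.subgroupOf Γ, Ψ ⟨y.1.1, hm y⟩ ∈ K := fun y => by
    obtain ⟨z, hz, e⟩ := y.2
    have : z = ⟨y.1.1, hm y⟩ := Subtype.ext e
    exact this ▸ hz
  let φ : L.subgroupOf Γ →* K := MonoidHom.mk' (fun y => ⟨_, hk y⟩) fun y z =>
    Subtype.ext (map_mul Ψ ⟨y.1.1, hm y⟩ ⟨z.1.1, hm z⟩)
  have e' : Ψ ((x ^ (4 * g)) ^ n) = (γ ^ (4 * g * n) : K) := by
    rw [← pow_mul, map_pow, e, SubgroupClass.coe_pow]
  let y : L.subgroupOf Γ := ⟨⟨_, i2.1⟩, (x ^ (4 * g)) ^ n, by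
    rw [SetLike.mem_coe, Subgroup.mem_comap, e']
    exact Subtype.prop _, rfl⟩
  have hy : φ y = γ ^ (4 * g * n) := Subtype.ext e'
  refine fin_of_virtual (L.subgroupOf Γ) (χ.comp φ) y ?_
  rw [MonoidHom.comp_apply, hy, map_pow]
  exact fun h => hχ ((pow_eq_one_iff_left (by positivity)).1 h)

theorem glueTau (hC : CenSt) {g : ℕ} (hg : 0 < g) (hr : RawOk g) {A : Type} [Group A] (τ : ℕ → A)
    (c : Ctx (Fin (2 * g))) (W : RW) (Tl : List SA) (a : ℕ) (hc : c.r = ev (2 * g) W)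
    (hL : Lv (2 * g) W Tl a τ) (om : SA) (wr wρ cρ wτ cτ wγ : RW)
    (ok : (Tl.all (okS (2 * g)) && okS (2 * g) om && eqF (sub om.1 (rawR g)) W &&
      okG (2 * g) Tl om ([], []) wr W && okG (2 * g) Tl om (rawRho g) wρ cρ &&
      okG (2 * g) Tl om (rawTau g) wτ cτ && bd 2 wγ) = true)
    (h1 : gw τ wr = 1) (h2 : Commute (gw τ wρ ^ (2 * g)) (gw τ wτ))
    (K : Subgroup A) [K.FiniteIndex] (χ : K →* Multiplicative ℤ) (γ : K) (hχ : χ γ ≠ 1)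
    (n : ℕ) (hγ : γ.1 = gw τ (sub [wρ, wτ] wγ) ^ n)
    (Γ : Subgroup (ModPM (Surf g))) (hΓ : Γ.relIndex (ModP (Surf g)) ≠ 0) : NoTau Γ := by
  simp only [Bool.and_eq_true] at ok
  obtain ⟨⟨⟨⟨⟨⟨hT, ho⟩, hW⟩, o1⟩, o2⟩, o3⟩, o4⟩ := ok
  have hω : aut (2 * g) om (rr g) = ev (2 * g) W := by
    rw [hr.1, (Raw_aut _ om _ ho).1, ev, ev, Raw_eqF _ _ _ hW]
  have e : ∀ (p : SA) (w c : RW) (φ : MulAut (FG g)), okG (2 * g) Tl om p w c = true →
      (∀ i, φ (FreeGroup.of i) = ev (2 * g) (sub p.1 [((i : ℕ), true)])) → aut (2 * g) p = φ := by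
    intro p w c φ h h'
    simp only [okG, Bool.and_eq_true] at h
    exact Raw_ext _ fun i => by rw [h', ← Raw_of, (Raw_aut _ p _ h.1.1).1]
  have m1 := glue_mem τ hT ho o1
  have m2 := glue_mem τ hT ho o2
  have m3 := glue_mem τ hT ho o3
  rw [e _ _ _ 1 o1 fun i => (Raw_of _ i).symm, mul_one, mul_inv_cancel, mul_one, h1, ← hω] at m1
  rw [e _ _ _ _ o2 hr.2.1] at m2
  rw [e _ _ _ _ o3 hr.2.2] at m3
  obtain ⟨Φ, hΦ⟩ := finSt (FG g) A (Gr (2 * g) Tl τ Tl.length) (rr g) (aut (2 * g) om) (AutC g)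
    (fun _ => Iff.rfl) (fun w hw => by
      rw [hω, ← hc] at hw ⊢
      refine (hC _ c w hw).resolve_left fun h => ?_
      have := c.full.2 (⟨0, by omega⟩, true)
      rw [h] at this
      exact List.not_mem_nil this)
    (by rw [hω]; exact hL.1) hL.2.1 (by rw [hω]; exact hL.2.2.1) m1
  have p2 := hΦ ⟨rho g, rho_mem g⟩ _ _ m2
  have p3 := hΦ ⟨tau g, tau_mem g⟩ _ _ m3
  refine noTau_of hg Φ (fun w => hΦ _ (aut (2 * g) om w)⁻¹ 1 ?_) (by rwa [p2, p3]) K χ γ hχ ?_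
    Γ hΓ
  · refine (congrArg (· ∈ Gr (2 * g) Tl τ Tl.length) ?_).mpr (one_mem _)
    refine Prod.ext (MulEquiv.ext fun x => ?_) rfl
    simp [mul_assoc]
  · rw [hγ, Raw_sub, p2, p3]
    refine pow_mem (Raw_mem _ _ 2 _ (fun i hi => Subgroup.subset_closure ?_) o4) n
    interval_cases i
    · exact Or.inl rfl
    · exact Or.inr rfl

open Pool.Agent.Lib.MP_c86c76_al.Eng in
theorem noTau3 (Γ : Subgroup (ModPM (Surf 3))) (hΓ : Γ.relIndex (ModP (Surf 3)) ≠ 0) :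
    NoTau Γ := by
  obtain ⟨c, hc⟩ := cx3
  obtain ⟨K, hK, χ, γ, i1, i2⟩ := hold3_G
  exact glueTau (cenSt diaSt) (by norm_num) rawOk_three tau3 c (rW 3) Tl3 4
    (by rw [Ctx.r, hc]; exact (Raw_ev _ _).symm) (lv3 tau3 rels3_hold) om3 gB3 wR3
    [(5,false),(3,false),(0,true),(1,false),(0,false),(3,true),(2,true),(3,false),(2,false),
      (5,true),(4,true),(5,false)]
    wT3 [] wG3 (by decide +kernel) hold3_B (gw_cmw tau3 _ _ _ hold3_C) K χ γ i1 8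
    (by rw [i2, gw_pw]; rfl) Γ hΓ

theorem noTau4 (Γ : Subgroup (ModPM (Surf 4))) (hΓ : Γ.relIndex (ModP (Surf 4)) ≠ 0) :
    NoTau Γ := by
  obtain ⟨c, hc⟩ := cx4
  obtain ⟨K, hK, χ, γ, i1, i2⟩ := K4.gG4_hol
  exact glueTau (cenSt diaSt) (by norm_num) rawOk_four K4.tau4 c (rW 4) Tl4 6
    (by rw [Ctx.r, hc]; exact (Raw_ev _ _).symm) (lv4 K4.tau4 K4.rels4_hold) om4 gB4 wR4
    [(7,false),(5,false),(3,false),(0,true),(1,false),(0,false),(3,true),(2,true),(3,false),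
      (2,false),(5,true),(4,true),(5,false),(4,false),(7,true),(6,true),(7,false)]
    wT4 [] wG4 (by decide +kernel) K4.gB4_hold (gw_cmw K4.tau4 _ _ _ K4.gC4_hold) K χ γ i1 1
    (by rw [i2, gw_pw]; rfl) Γ hΓ

end Pool.Agent.MB
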